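import Pool.Agent.Q309.DU.Loc

/-!
Entire curves given by linear functional equations of bounded complexity: bounds which are uniform in
the variety.
-/

set_option autoImplicit false

namespace Pool.Agent.Q309.DU

open Filter Topology Set MvPolynomial
open scoped LinearAlgebra.Projectivization
open Pool.Agent.TH143.EL
open Pool.Agent.Q1.SL

/-- **Bounds which are uniform in the variety.** -/
theorem fun_uniform (n D r e : ℕ) : ∃ d : ℕ, ∀ S : Set (MvPolynomial (Fin (n + 1)) ℂ),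
    (∀ F ∈ S, ∃ e, e ≤ D ∧ F.IsHomogeneous e) → ∀ (σ t : ℂ → ℂ) (α β : ℂ), Differentiable ℂ σ →
      (∃ z w, σ z ≠ σ w) → Differentiable ℂ t → (∀ z, t (σ z) = α * t z + β) →
      (∀ k, 0 < k → k ≤ d → ∃ z, t (σ^[k] z) ≠ t z) → ∀ f : ℂ → ℙ ℂ (Fin (n + 1) → ℂ),
        HolMap f → (∀ z, ∀ F ∈ S, eval (f z).rep F = 0) → LinCurve r e σ t f →
          (∀ G : MvPolynomial (Fin (n + 1)) ℂ, (∃ e, e ≤ D ∧ G.IsHomogeneous e) → RatIn S G d →
            ∀ z, eval (f z).rep G = 0) ∨ ∃ k, 0 < k ∧ k ≤ d ∧ ∀ z, f (σ^[k] z) = f z := by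
  obtain ⟨d, hd⟩ := seq_uniform n D r e
  refine ⟨d, ?_⟩
  rintro S hS σ t α β hσ hσn ht hαβ hord f hf hX ⟨h, hm, hfe, hr⟩
  rcases fun_main ⟨hσ, hσn⟩ ht hαβ hord (fun F hF => by
      obtain ⟨e, -, he⟩ := hS F hF
      exact ⟨e, he⟩)
    (A := fun G => (∃ e, e ≤ D ∧ G.IsHomogeneous e) ∧ RatIn S G d)
    (fun t x hx => by
      obtain ⟨m, hm1, hm2⟩ := hd S hS t x hx
      exact ⟨m, hm1, fun G _ hG => hm2 G hG.1 hG.2⟩) hf hX hm hfe hr with h1 | h1
  · refine Or.inl fun G hG hR z => h1 z G ?_ ⟨hG, hR⟩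
    obtain ⟨e, -, he⟩ := hG
    exact ⟨e, he⟩
  · exact Or.inr h1

/-- rational curves of degree at most `d` are entire curves given by `q`-difference equations -/
theorem ratIn_of_q {n : ℕ} {S : Set (MvPolynomial (Fin (n + 1)) ℂ)}
    (hS : ∀ F ∈ S, ∃ e, F.IsHomogeneous e) {G : MvPolynomial (Fin (n + 1)) ℂ}
    (hG : ∃ e, G.IsHomogeneous e) {q : ℂ} {d : ℕ}
    (h : ∀ f : ℂ → ℙ ℂ (Fin (n + 1) → ℂ), HolMap f → (∀ z, ∀ F ∈ S, eval (f z).rep F = 0) →
      (∃ z w, f z ≠ f w) → LinCurve 1 d (fun z => q * z) (fun z => z) f →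
        ∀ z, eval (f z).rep G = 0) : RatIn S G d := by
  intro p hp1 hp2 hp3
  obtain ⟨f, hf, hm, hr, hI, hnc, hGf⟩ := exists_curve hp3 (I := Ideal.span S)
    fun F hF => span_mem hp2 hF
  refine hGf G hG (h f hf (fun z F hF => hI z F (Ideal.subset_span hF) (hS F hF)) hnc
    ⟨fun j z => (p j).eval z, hm, fun j => ?_, hr⟩)
  have h1 := lin_poly (p j) (hp1 j) (Polynomial.C q * Polynomial.X)
    ((Polynomial.natDegree_C_mul_le _ _).trans Polynomial.natDegree_X_le)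
  have h2 : (fun z : ℂ => Polynomial.eval z (Polynomial.C q * Polynomial.X)) =
      fun z => q * z := by
    funext z
    rw [Polynomial.eval_mul, Polynomial.eval_C, Polynomial.eval_X]
  rw [h2] at h1
  exact h1

end Pool.Agent.Q309.DU
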