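import Pool.Agent.Q309.DU.Uni

/-!
Sequences of points over fields given by linear difference equations with polynomial coefficients,
and the points of rational curves.
-/

set_option autoImplicit false

namespace Pool.Agent.Q309.DU

open MvPolynomial Filter
open Pool.Agent.Q1.SL

variable {n : ℕ}

/-- The homogeneous coordinates of the points `x 0, ..., x B` over the field `L` satisfy nontrivial
linear difference equations `∑ P_k (t m) x (m + k) j = 0`, `m ≤ B`, of order at most `r`; the
coefficients are values of polynomials over `L` of degree at most `e` at different points `t m` with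
`t (m + 1) = α t m + β` (for instance `t m = m` or `t m = q ^ m`). -/
structure DSeq {L : Type} [Field L] (r e B : ℕ) (x : ℕ → Fin (n + 1) → L) : Prop where
  ne : ∀ m ≤ B, x m ≠ 0
  eqn : ∃ (t : ℕ → L) (α β : L), (∀ m, t (m + 1) = α * t m + β) ∧
    (∀ i j, i < j → j ≤ B → t i ≠ t j) ∧ ∀ j, ∃ P : ℕ → Polynomial L, (∃ k ≤ r, P k ≠ 0) ∧
      (∀ k, (P k).natDegree ≤ e) ∧
        ∀ m ≤ B, ∑ k ∈ Finset.range (r + 1), (P k).eval (t m) * x (m + k) j = 0

/-- The points `x 0, ..., x B` of the projective space are different. -/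
def Diff {L : Type} [Field L] (B : ℕ) (x : ℕ → Fin (n + 1) → L) : Prop :=
  ∀ i j, i < j → j ≤ B → ∃ u v, x i u * x j v ≠ x i v * x j u

theorem DSeq.pseq {L : Type} [Field L] {r e B : ℕ} {x : ℕ → Fin (n + 1) → L}
    (h : DSeq r e B x) (τ : L →+* ℂ) (hd : Diff B x) {S : Set (MvPolynomial (Fin (n + 1)) ℂ)}
    (hS : ∀ m ≤ B, ∀ F ∈ S, eval (fun j => τ (x m j)) F = 0) :
    ∃ t : ℕ → ℂ, PSeq r e S B t fun m j => τ (x m j) := by
  obtain ⟨t, α, β, h1, h2, h3⟩ := h.eqn
  refine ⟨fun m => τ (t m), ⟨⟨τ α, τ β, fun m => by rw [h1, map_add, map_mul]⟩,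
    fun i j hij hj h4 => h2 i j hij hj (τ.injective h4), fun m hm h4 => h.ne m hm ?_,
    fun j => ?_, hS, fun i j hij hj => ?_⟩⟩
  · funext j
    have h5 := congrFun h4 j
    exact (map_eq_zero τ).1 h5
  · obtain ⟨P, ⟨k0, hk0, hPk⟩, hPe, hrec⟩ := h3 j
    refine ⟨fun k => (P k).map τ, ⟨k0, hk0, ?_⟩, fun k => ?_, fun m hm => ?_⟩
    · rwa [Ne, Polynomial.map_eq_zero_iff τ.injective]
    · exact (Polynomial.natDegree_map_le).trans (hPe k)
    · have h4 := congrArg τ (hrec m hm)
      rw [map_zero, map_sum] at h4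
      rw [← h4]
      refine Finset.sum_congr rfl fun k _ => ?_
      rw [map_mul, Polynomial.eval_map, Polynomial.eval₂_at_apply]
  · obtain ⟨u, v, huv⟩ := hd i j hij hj
    refine ⟨u, v, fun h4 => huv ?_⟩
    rw [← map_mul, ← map_mul] at h4
    exact τ.injective h4

/-! ### The points of rational curves -/

section rat

variable {L : Type} [Field L] [CharZero L]

theorem comp_ne {p : Polynomial L} (hp : p ≠ 0) (c : L) :
    p.comp (Polynomial.X + Polynomial.C c) ≠ 0 := by
  intro h
  apply hp
  have h1 := congrArg (fun q => q.comp (Polynomial.X + Polynomial.C (-c))) h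
  simp only [Polynomial.zero_comp, Polynomial.comp_assoc] at h1
  have h2 : (Polynomial.X + Polynomial.C c).comp (Polynomial.X + Polynomial.C (-c)) =
      Polynomial.X := by
    rw [Polynomial.add_comp, Polynomial.X_comp, Polynomial.C_comp, add_assoc, ← Polynomial.C_add,
      neg_add_cancel, Polynomial.C_0, add_zero]
  rwa [h2, Polynomial.comp_X] at h1

/-- a nonconstant rational curve is not periodic -/
theorem not_periodic {N : ℕ} {p : Fin N → Polynomial L} (hp : NonC p) {c : L} (hc : c ≠ 0) :
    ∃ u v, p u * (p v).comp (Polynomial.X + Polynomial.C c) -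
      p v * (p u).comp (Polynomial.X + Polynomial.C c) ≠ 0 := by
  classical
  by_contra hcon
  push Not at hcon
  have hcon' : ∀ u v z, (p u).eval z * (p v).eval (z + c) = (p v).eval z * (p u).eval (z + c) := by
    intro u v z
    have h1 := congrArg (Polynomial.eval z) (hcon u v)
    simp only [Polynomial.eval_sub, Polynomial.eval_mul, Polynomial.eval_comp, Polynomial.eval_add,
      Polynomial.eval_X, Polynomial.eval_C, Polynomial.eval_zero] at h1
    exact sub_eq_zero.1 h1
  obtain ⟨s, t, i, j, hst⟩ := hp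
  obtain ⟨l, hl⟩ : ∃ l, p l ≠ 0 := by
    by_contra hcon2
    push Not at hcon2
    apply hst
    rw [hcon2 i, hcon2 j, Polynomial.eval_zero, Polynomial.eval_zero]
  have hinj : Function.Injective fun m : ℕ => (m : L) * c := by
    intro a b hab
    have h1 := mul_right_cancel₀ hc hab
    exact_mod_cast h1
  have hfin : {m : ℕ | (p l).eval ((m : L) * c) = 0}.Finite :=
    Set.Finite.preimage hinj.injOn (Polynomial.finite_setOfPred_isRoot hl)
  obtain ⟨k, hk⟩ := hfin.bddAbove
  have hk' : ∀ m : ℕ, (p l).eval (((k + 1 + m : ℕ) : L) * c) ≠ 0 := by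
    intro m h0
    have h1 := hk (show k + 1 + m ∈ {m : ℕ | (p l).eval ((m : L) * c) = 0} from h0)
    omega
  set a : L := ((k + 1 : ℕ) : L) * c with ha
  have hal : (p l).eval a ≠ 0 := by
    have := hk' 0
    rwa [Nat.add_zero] at this
  have hprop : ∀ (m : ℕ) u, (p u).eval (((k + 1 + m : ℕ) : L) * c) * (p l).eval a =
      (p l).eval (((k + 1 + m : ℕ) : L) * c) * (p u).eval a := by
    intro m
    induction m with
    | zero =>
      intro u
      rw [Nat.add_zero, ← ha]
      ring
    | succ m ih =>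
      intro u
      have h1 := hcon' u l (((k + 1 + m : ℕ) : L) * c)
      have h2 : ((k + 1 + (m + 1) : ℕ) : L) * c = ((k + 1 + m : ℕ) : L) * c + c := by
        push_cast
        ring
      rw [← h2] at h1
      apply mul_left_cancel₀ (hk' m)
      linear_combination (-(p l).eval a) * h1 +
        ((p l).eval (((k + 1 + (m + 1) : ℕ) : L) * c)) * ih u
  have hpoly : ∀ u, p u * Polynomial.C ((p l).eval a) = p l * Polynomial.C ((p u).eval a) := by
    intro u
    refine Polynomial.eq_of_infinite_eval_eq _ _ (Set.Infinite.mono ?_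
      (Set.infinite_range_of_injective (f := fun m : ℕ => ((k + 1 + m : ℕ) : L) * c) ?_))
    · rintro _ ⟨m, rfl⟩
      change Polynomial.eval _ _ = Polynomial.eval _ _
      rw [Polynomial.eval_mul, Polynomial.eval_mul, Polynomial.eval_C, Polynomial.eval_C]
      exact hprop m u
    · intro m m' hmm
      have h1 := hinj hmm
      omega
  have hcs : ∀ u w, (p u).eval w = (p l).eval w * ((p u).eval a / (p l).eval a) := by
    intro u w
    have h2 := congrArg (Polynomial.eval w) (hpoly u)
    simp only [Polynomial.eval_mul, Polynomial.eval_C] at h2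
    field_simp
    exact h2
  apply hst
  rw [hcs i s, hcs j t, hcs j s, hcs i t]
  ring

/-- **Runs of different points** on a rational curve. -/
theorem exists_run {p : Fin (n + 1) → Polynomial L} (hp : NonC p) {d : ℕ}
    (hd : ∀ j, (p j).natDegree ≤ d) {g : Polynomial L} (hg : g ≠ 0) (B : ℕ) :
    ∃ x : ℕ → Fin (n + 1) → L, DSeq 1 d B x ∧ Diff B x ∧
      ∀ m ≤ B, ∃ z, g.eval z ≠ 0 ∧ ∀ j, x m j = (p j).eval z := by
  classical
  obtain ⟨l, hl⟩ : ∃ l, p l ≠ 0 := by
    by_contra hcon2
    push Not at hcon2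
    obtain ⟨s, t, i, j, hst⟩ := hp
    apply hst
    rw [hcon2 i, hcon2 j, Polynomial.eval_zero, Polynomial.eval_zero]
  have hper : ∀ k : ℕ, 0 < k → ∃ u v, p u * (p v).comp (Polynomial.X + Polynomial.C (k : L)) -
      p v * (p u).comp (Polynomial.X + Polynomial.C (k : L)) ≠ 0 := fun k hk =>
    not_periodic hp (by exact_mod_cast hk.ne')
  choose! u v huv using hper
  let E : ℕ → Polynomial L := fun k => p (u k) * (p (v k)).comp (Polynomial.X + Polynomial.C (k : L)) -
    p (v k) * (p (u k)).comp (Polynomial.X + Polynomial.C (k : L))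
  let PP : Polynomial L := ∏ m ∈ Finset.range (B + 1),
    ((g * p l * ∏ k ∈ Finset.Icc 1 B, E k).comp (Polynomial.X + Polynomial.C (m : L)))
  have hPP : PP ≠ 0 := by
    refine Finset.prod_ne_zero_iff.2 fun m _ => comp_ne (mul_ne_zero (mul_ne_zero hg hl)
      (Finset.prod_ne_zero_iff.2 fun k hk => ?_)) _
    exact huv k (Finset.mem_Icc.1 hk).1
  obtain ⟨s, hs⟩ : ∃ s : ℕ, PP.eval (s : L) ≠ 0 := by
    by_contra hcon
    push Not at hcon
    apply hPP
    refine Polynomial.eq_zero_of_infinite_isRoot _ (Set.Infinite.mono ?_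
      (Set.infinite_range_of_injective (f := fun m : ℕ => (m : L)) Nat.cast_injective))
    rintro _ ⟨m, rfl⟩
    exact hcon m
  have hs' : ∀ m ≤ B, g.eval ((s : L) + m) ≠ 0 ∧ (p l).eval ((s : L) + m) ≠ 0 ∧
      ∀ k, 1 ≤ k → k ≤ B → (E k).eval ((s : L) + m) ≠ 0 := by
    intro m hm
    have h1 : (∏ m ∈ Finset.range (B + 1), ((g * p l * ∏ k ∈ Finset.Icc 1 B, E k).comp
        (Polynomial.X + Polynomial.C (m : L))).eval (s : L)) ≠ 0 := by
      rw [← Polynomial.eval_prod]
      exact hs
    have h2 := Finset.prod_ne_zero_iff.1 h1 m (Finset.mem_range.2 (by omega))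
    rw [Polynomial.eval_comp, Polynomial.eval_add, Polynomial.eval_X, Polynomial.eval_C,
      Polynomial.eval_mul, Polynomial.eval_mul, Polynomial.eval_prod] at h2
    refine ⟨left_ne_zero_of_mul (left_ne_zero_of_mul h2),
      right_ne_zero_of_mul (left_ne_zero_of_mul h2), fun k hk1 hkB => ?_⟩
    exact Finset.prod_ne_zero_iff.1 (right_ne_zero_of_mul h2) k (Finset.mem_Icc.2 ⟨hk1, hkB⟩)
  refine ⟨fun m j => (p j).eval ((s : L) + m), ⟨fun m hm h0 => (hs' m hm).2.1 (congrFun h0 l),
    fun m => (s : L) + m, 1, 1, fun m => by push_cast; ring, fun i j hij _ h0 => ?_,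
    fun j => ?_⟩, fun i j hij hj => ?_, fun m hm => ⟨_, (hs' m hm).1, fun j => rfl⟩⟩
  · have h1 : (i : L) = j := add_left_cancel h0
    have h2 : i = j := by exact_mod_cast h1
    omega
  · by_cases h0 : p j = 0
    · refine ⟨fun _ => 1, ⟨0, Nat.zero_le _, one_ne_zero⟩, fun k => by simp, fun m _ => ?_⟩
      rw [h0]
      simp
    · refine ⟨fun k => if k = 0 then -((p j).comp (Polynomial.X + Polynomial.C 1)) else p j,
        ⟨1, le_rfl, by simpa using h0⟩, fun k => ?_, fun m _ => ?_⟩
      · by_cases hk : k = 0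
        · simp only [if_pos hk]
          rw [Polynomial.natDegree_neg]
          refine Polynomial.natDegree_comp_le.trans ?_
          rw [Polynomial.natDegree_X_add_C, mul_one]
          exact hd j
        · simp only [if_neg hk]
          exact hd j
      · rw [Finset.sum_range_succ, Finset.sum_range_one]
        simp only [if_pos, if_neg one_ne_zero, Polynomial.eval_neg, Polynomial.eval_comp,
          Polynomial.eval_add, Polynomial.eval_X, Polynomial.eval_C, Nat.cast_add, Nat.cast_zero,
          Nat.cast_one, add_zero]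
        ring_nf
  · have h1 := (hs' i (by omega)).2.2 (j - i) (by omega) (by omega)
    refine ⟨u (j - i), v (j - i), fun h2 => h1 ?_⟩
    simp only [E, Polynomial.eval_sub, Polynomial.eval_mul, Polynomial.eval_comp,
      Polynomial.eval_add, Polynomial.eval_X, Polynomial.eval_C]
    have h3 : (s : L) + i + ((j - i : ℕ) : L) = s + j := by
      rw [Nat.cast_sub hij.le]
      ring
    rw [h3]
    exact sub_eq_zero.2 h2

end rat

end Pool.Agent.Q309.DU
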