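import Pool.Agent.Q309.DU.Pts
import Pool.Agent.Q13.DS.Desc

/-!
Runs of different points given by linear difference equations with polynomial coefficients.
-/

set_option autoImplicit false

namespace Pool.Agent.Q309.DU

open MvPolynomial Filter
open Pool.Agent.Q1.SL
open Pool.Agent.H533R3.SL (Uniruled)

variable {n : ℕ}

theorem not_diff {L : Type} [Field L] {B : ℕ} {x : ℕ → Fin (n + 1) → L} (h : ¬ Diff B x) :
    ∃ i j, i < j ∧ j ≤ B ∧ ∀ u v, x i u * x j v = x i v * x j u := by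
  unfold Diff at h
  push Not at h
  exact h

theorem runs_uniform (n D r e : ℕ) : ∃ d : ℕ, ∀ S : Set (MvPolynomial (Fin (n + 1)) ℂ),
    (∀ F ∈ S, ∃ e, e ≤ D ∧ F.IsHomogeneous e) → ∀ (L : Type) [Field L] (τ : L →+* ℂ)
      (x : ℕ → Fin (n + 1) → L), DSeq r e d x →
        (∀ m ≤ d, ∀ F ∈ S, eval (fun j => τ (x m j)) F = 0) →
        (∃ i j, i < j ∧ j ≤ d ∧ ∀ u v, x i u * x j v = x i v * x j u) ∨
          ∃ m ≤ d, ∀ G : MvPolynomial (Fin (n + 1)) ℂ, (∃ e, e ≤ D ∧ G.IsHomogeneous e) →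
            RatIn S G d → eval (fun j => τ (x m j)) G = 0 := by
  obtain ⟨d, hd⟩ := seq_uniform n D r e
  refine ⟨d, fun S hS L _ τ x hx hX => ?_⟩
  by_cases hdiff : Diff d x
  · obtain ⟨t, ht⟩ := hx.pseq τ hdiff hX
    exact Or.inr (hd S hS t _ ht)
  · exact Or.inl (not_diff hdiff)

theorem runs_special (S : Set (MvPolynomial (Fin (n + 1)) ℂ))
    (hS : ∀ F ∈ S, ∃ e, F.IsHomogeneous e) (r e : ℕ) : ∃ d : ℕ, ∀ (L : Type) [Field L]
      (τ : L →+* ℂ) (x : ℕ → Fin (n + 1) → L), DSeq r e d x →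
        (∀ m ≤ d, ∀ F ∈ S, eval (fun j => τ (x m j)) F = 0) →
        (∃ i j, i < j ∧ j ≤ d ∧ ∀ u v, x i u * x j v = x i v * x j u) ∨
          ∃ m ≤ d, ∀ G : MvPolynomial (Fin (n + 1)) ℂ, (∃ e, G.IsHomogeneous e) →
            RatIn S G d → eval (fun j => τ (x m j)) G = 0 := by
  obtain ⟨d, hd⟩ := seq_special S hS r e
  refine ⟨d, fun L _ τ x hx hX => ?_⟩
  by_cases hdiff : Diff d x
  · obtain ⟨t, ht⟩ := hx.pseq τ hdiff hX
    exact Or.inr (hd t _ ht)
  · exact Or.inl (not_diff hdiff)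

/-- a rational curve contains arbitrarily long runs -/
theorem run_of_rat {S : Set (MvPolynomial (Fin (n + 1)) ℂ)} {G : MvPolynomial (Fin (n + 1)) ℂ}
    {d : ℕ} (h : ¬ RatIn S G d) (B : ℕ) : ∃ x : ℕ → Fin (n + 1) → ℂ, DSeq 1 d B x ∧ Diff B x ∧
      (∀ m ≤ B, ∀ F ∈ S, eval (x m) F = 0) ∧ ∀ m ≤ B, eval (x m) G ≠ 0 := by
  unfold RatIn at h
  push Not at h
  obtain ⟨p, hp1, hp2, hp3, hp4⟩ := h
  obtain ⟨x, hx1, hx2, hx3⟩ := exists_run hp3 hp1 hp4 B
  refine ⟨x, hx1, hx2, fun m hm F hF => ?_, fun m hm => ?_⟩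
  · obtain ⟨z, -, hz⟩ := hx3 m hm
    rw [show x m = fun j => (p j).eval z from funext hz, ← poly_eval, hp2 F hF,
      Polynomial.eval_zero]
  · obtain ⟨z, hz0, hz⟩ := hx3 m hm
    rw [show x m = fun j => (p j).eval z from funext hz, ← poly_eval]
    exact hz0

/-- For all `r`, `e` there are a form `G` which does not vanish on `X` and a number `B` such that
every sequence of points of `X`, over any field which can be embedded in `ℂ`, given by linear
difference equations of order at most `r` with polynomial coefficients of degree at most `e`, has a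
point in `G = 0` or two equal points among its first `B + 1` points. -/
def PtDeg (I : Ideal (MvPolynomial (Fin (n + 1)) ℂ)) : Prop :=
  ∀ r e : ℕ, ∃ (G : MvPolynomial (Fin (n + 1)) ℂ) (B : ℕ), (∃ d, G.IsHomogeneous d) ∧ G ∉ I ∧
    ∀ (L : Type) [Field L] (τ : L →+* ℂ) (x : ℕ → Fin (n + 1) → L), DSeq r e B x →
      (∀ m ≤ B, ∀ F ∈ I, (∃ d, F.IsHomogeneous d) → eval (fun j => τ (x m j)) F = 0) →
        (∃ m ≤ B, eval (fun j => τ (x m j)) G = 0) ∨
          ∃ i j, i < j ∧ j ≤ B ∧ ∀ u v, x i u * x j v = x i v * x j u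

theorem ev_span {FF : Set (MvPolynomial (Fin (n + 1)) ℂ)} {x : Fin (n + 1) → ℂ}
    (h : ∀ F ∈ FF, eval x F = 0) {F : MvPolynomial (Fin (n + 1)) ℂ} (hF : F ∈ Ideal.span FF) :
    eval x F = 0 := by
  have h1 : Ideal.span FF ≤ RingHom.ker (eval x) := by
    rw [Ideal.span_le]
    exact h
  exact h1 hF

theorem pt_tfae (FF : Set (MvPolynomial (Fin (n + 1)) ℂ))
    (hhom : ∀ F ∈ FF, ∃ e, F.IsHomogeneous e) (hprime : (Ideal.span FF).IsPrime) :
    List.TFAE [¬ Uniruled (Ideal.span FF), RatDeg (Ideal.span FF), PtDeg (Ideal.span FF)] := by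
  tfae_have 1 ↔ 2 := not_uniruled_iff hprime
  tfae_have 2 → 3 := by
    intro h r e
    obtain ⟨d, hd⟩ := runs_special FF hhom r e
    obtain ⟨G, hG1, hG2, hG3⟩ := h d
    refine ⟨G, d, hG1, hG2, fun L _ τ x hx hX => ?_⟩
    rcases hd L τ x hx (fun m hm F hF => hX m hm F (Ideal.subset_span hF) (hhom F hF)) with
      h1 | ⟨m, hm, h1⟩
    · exact Or.inr h1
    · refine Or.inl ⟨m, hm, h1 G hG1 fun p hp1 hp2 hp3 => hG3 p hp1 (fun F hF => ?_) hp3⟩
      have h2 : Ideal.span FF ≤ RingHom.ker (aeval p :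
          MvPolynomial (Fin (n + 1)) ℂ →ₐ[ℂ] Polynomial ℂ) := by
        rw [Ideal.span_le]
        exact hp2
      exact h2 hF
  tfae_have 3 → 2 := by
    intro h d
    obtain ⟨G, B, hG1, hG2, hG3⟩ := h 1 d
    refine ⟨G, hG1, hG2, ?_⟩
    by_contra hcon
    obtain ⟨x, hx1, hx2, hx3, hx4⟩ := run_of_rat
      (S := {P : MvPolynomial (Fin (n + 1)) ℂ | P ∈ Ideal.span FF}) (G := G) (d := d) hcon B
    rcases hG3 ℂ (RingHom.id ℂ) x hx1 (fun m hm F hF _ => hx3 m hm F hF) with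
      ⟨m, hm, h1⟩ | ⟨i, j, hij, hj, h1⟩
    · exact hx4 m hm h1
    · obtain ⟨u, v, huv⟩ := hx2 i j hij hj
      exact huv (h1 u v)
  tfae_finish

open Pool.Agent.Q13.DS in
/-- **Varieties over subfields.** -/
theorem pt_descend {F : Type} [Field F] [Algebra F ℂ] (FF : Set (MvPolynomial (Fin (n + 1)) F))
    (hhom : ∀ P ∈ FF, ∃ e, P.IsHomogeneous e)
    (hprime : ((Ideal.span FF).map (MvPolynomial.map (algebraMap F ℂ))).IsPrime)
    (hnu : ¬ Uniruled ((Ideal.span FF).map (MvPolynomial.map (algebraMap F ℂ)))) (r e : ℕ) :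
    ∃ (G : MvPolynomial (Fin (n + 1)) F) (B : ℕ), (∃ d, G.IsHomogeneous d) ∧
      G ∉ Ideal.span FF ∧ ∀ x : ℕ → Fin (n + 1) → F, DSeq r e B x →
        (∀ m ≤ B, ∀ P ∈ FF, eval (x m) P = 0) →
        (∃ m ≤ B, eval (x m) G = 0) ∨
          ∃ i j, i < j ∧ j ≤ B ∧ ∀ u v, x i u * x j v = x i v * x j u := by
  classical
  have hmap : (Ideal.span FF).map (MvPolynomial.map (algebraMap F ℂ)) =
      Ideal.span (MvPolynomial.map (algebraMap F ℂ) '' FF) := Ideal.map_span _ _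
  have hdesc := descend (F := F) (E := ℂ) (Ideal.span FF)
  rw [hmap] at hprime hnu hdesc
  have hhom' : ∀ P ∈ MvPolynomial.map (algebraMap F ℂ) '' FF, ∃ e, P.IsHomogeneous e := by
    rintro _ ⟨P, hP, rfl⟩
    obtain ⟨e, he⟩ := hhom P hP
    exact ⟨e, he.map _⟩
  have hpt : PtDeg (Ideal.span (MvPolynomial.map (algebraMap F ℂ) '' FF)) :=
    ((pt_tfae _ hhom' hprime).out 0 2).1 hnu
  obtain ⟨G, B, hG1, hG2, hG3⟩ := hpt r e
  obtain ⟨c, hc⟩ := hdesc G hG2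
  refine ⟨coefMap c G, B, ?_, hc, fun x hx hX => ?_⟩
  · obtain ⟨d, hd⟩ := hG1
    exact ⟨d, coefMap_homog c hd⟩
  · rcases hG3 F (algebraMap F ℂ) x hx (fun m hm P hP _ => ev_span (fun P hP => by
      obtain ⟨P, hP', rfl⟩ := hP
      have h1 : algebraMap F ℂ (eval (x m) P) =
          eval₂ (algebraMap F ℂ) (fun j => algebraMap F ℂ (x m j)) P :=
        eval₂_comp_left (algebraMap F ℂ) (RingHom.id F) (x m) P
      rw [eval_map, ← h1, hX m hm P hP', map_zero]) hP) with ⟨m, hm, h1⟩ | h1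
    · refine Or.inl ⟨m, hm, ?_⟩
      rw [eval_coefMap, h1, map_zero]
    · exact Or.inr h1

end Pool.Agent.Q309.DU
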