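import Pool.Agent.Q309.DU.Uni
import Pool.Agent.Y189.DC.Inv

/-!
Entire curves given by linear functional equations of bounded complexity.
-/

set_option autoImplicit false

namespace Pool.Agent.Q309.DU

open Filter Topology Set MvPolynomial
open scoped LinearAlgebra.Projectivization
open Pool.Agent.TH143.EL
open Pool.Agent.Y189.DC (NCE Gnr gnr_orbit mero_zero pigeon holMap_ext' no_fixed)
open Pool.Agent.Q1.SL

variable {n : ℕ}

/-- The function `h` satisfies a nontrivial linear functional equation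
`∑ P_k (t z) h (σ^k z) = 0`, `k ≤ r`, with polynomials `P_k` of degree at most `e`. -/
def LinEq (r e : ℕ) (σ t : ℂ → ℂ) (h : ℂ → ℂ) : Prop :=
  ∃ P : ℕ → Polynomial ℂ, (∃ k ≤ r, P k ≠ 0) ∧ (∀ k, (P k).natDegree ≤ e) ∧
    ∀ᶠ z in codiscrete ℂ, ∑ k ∈ Finset.range (r + 1), (P k).eval (t z) * h (σ^[k] z) = 0

theorem eval_rep {p : ℙ ℂ (Fin (n + 1) → ℂ)} {v : Fin (n + 1) → ℂ} (h : Rep p v)
    {F : MvPolynomial (Fin (n + 1)) ℂ} (hF : ∃ e, F.IsHomogeneous e) :
    eval p.rep F = 0 ↔ eval v F = 0 := by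
  have h1 := inV_iff (I := Ideal.span {F}) h
  have h2 : ∀ w : Fin (n + 1) → ℂ, (∀ G ∈ Ideal.span {F}, (∃ d, G.IsHomogeneous d) →
      eval w G = 0) ↔ eval w F = 0 := by
    intro w
    constructor
    · intro h3
      exact h3 F (Ideal.mem_span_singleton_self F) hF
    · intro h3 G hG _
      obtain ⟨c, rfl⟩ := Ideal.mem_span_singleton'.1 hG
      rw [map_mul, h3, mul_zero]
  rw [← h2, ← h2]
  exact h1

/-- a form which vanishes almost everywhere on the curve vanishes on the curve -/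
theorem form_all {f : ℂ → ℙ ℂ (Fin (n + 1) → ℂ)} (hf : HolMap f)
    {F : MvPolynomial (Fin (n + 1)) ℂ} (hF : ∃ e, F.IsHomogeneous e)
    (h : ∀ᶠ z in codiscrete ℂ, eval (f z).rep F = 0) (z : ℂ) : eval (f z).rep F = 0 := by
  have h1 : InV (Ideal.span {F}) (f z) := by
    apply inV_of_punct hf
    filter_upwards [codis_ev h z] with y hy
    intro G hG _
    obtain ⟨c, rfl⟩ := Ideal.mem_span_singleton'.1 hG
    rw [map_mul, hy, mul_zero]
  exact h1 F (Ideal.mem_span_singleton_self F) hF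

/-- **The main theorem on entire curves.** -/
theorem fun_main {σ t : ℂ → ℂ} (hσ : NCE σ) (ht : Differentiable ℂ t) {α β : ℂ}
    (hαβ : ∀ z, t (σ z) = α * t z + β) {B : ℕ}
    (hord : ∀ k, 0 < k → k ≤ B → ∃ z, t (σ^[k] z) ≠ t z)
    {S : Set (MvPolynomial (Fin (n + 1)) ℂ)} (hS : ∀ F ∈ S, ∃ e, F.IsHomogeneous e)
    {A : MvPolynomial (Fin (n + 1)) ℂ → Prop} {r e : ℕ}
    (huni : ∀ (t : ℕ → ℂ) (x : ℕ → Fin (n + 1) → ℂ), PSeq r e S B t x →
      ∃ m ≤ B, ∀ G : MvPolynomial (Fin (n + 1)) ℂ, (∃ e, G.IsHomogeneous e) → A G →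
        eval (x m) G = 0)
    {f : ℂ → ℙ ℂ (Fin (n + 1) → ℂ)} (hf : HolMap f) (hX : ∀ z, ∀ F ∈ S, eval (f z).rep F = 0)
    {h : Fin (n + 1) → ℂ → ℂ} (hm : ∀ j, Meromorphic (h j)) (hfe : ∀ j, LinEq r e σ t (h j))
    (hr : ∀ᶠ z in codiscrete ℂ, Rep (f z) fun j => h j z) :
    (∀ z, ∀ G : MvPolynomial (Fin (n + 1)) ℂ, (∃ e, G.IsHomogeneous e) → A G →
      eval (f z).rep G = 0) ∨ ∃ k, 0 < k ∧ k ≤ B ∧ ∀ z, f (σ^[k] z) = f z := by
  by_cases hGf' : ∀ z, ∀ G : MvPolynomial (Fin (n + 1)) ℂ, (∃ e, G.IsHomogeneous e) → A G →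
      eval (f z).rep G = 0
  · exact Or.inl hGf'
  right
  push Not at hGf'
  obtain ⟨z1, G, hG, hAG, hGz1⟩ := hGf'
  have hGf : ∃ z, eval (f z).rep G ≠ 0 := ⟨z1, hGz1⟩
  have hGn : ∀ᶠ z in codiscrete ℂ, eval (fun j => h j z) G ≠ 0 := by
    refine mero_ne (mero_eval hm G) fun h0 => ?_
    obtain ⟨z, hz⟩ := hGf
    apply hz
    refine form_all hf hG ?_ z
    filter_upwards [h0, hr] with y h1 h2
    exact (eval_rep h2 hG).2 h1
  have hpt : ∀ᶠ z in codiscrete ℂ, (fun j => h j z) ≠ 0 ∧ ∀ F ∈ S, eval (fun j => h j z) F = 0 := by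
    filter_upwards [hr] with z h1
    exact ⟨h1.1, fun F hF => (eval_rep h1 (hS F hF)).1 (hX z F hF)⟩
  choose P hne hdeg heq using hfe
  have g1 : Gnr fun z => ∀ j, ∀ m : ℕ, ∑ k ∈ Finset.range (r + 1),
      (P j k).eval (t (σ^[m] z)) * h j (σ^[k] (σ^[m] z)) = 0 :=
    Gnr.all fun j => gnr_orbit hσ (heq j)
  have g2 : Gnr fun z => ∀ (i k : ℕ), 0 < k → k ≤ B → t (σ^[k] (σ^[i] z)) ≠ t (σ^[i] z) := by
    refine Gnr.all fun i => Gnr.all fun k => ?_
    by_cases hk : 0 < k ∧ k ≤ B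
    · have hmt : Meromorphic (fun z => t (σ^[k] z) - t z) := fun z =>
        (((ht.comp (hσ.iter k).ent).analyticAt z).sub (ht.analyticAt z)).meromorphicAt
      have h4 : ∀ᶠ z in codiscrete ℂ, t (σ^[k] z) - t z ≠ 0 := by
        refine mero_ne hmt fun h0 => ?_
        obtain ⟨z, hz⟩ := hord k hk.1 hk.2
        apply hz
        exact eq_of_codis (f := fun z => t (σ^[k] z)) (g := t)
          (h0.mono fun y hy => sub_eq_zero.1 hy)
          ((ht.comp (hσ.iter k).ent) z).continuousAt (ht z).continuousAt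
      exact (Gnr.of_codis ((hσ.iter i).pull h4)).mono fun z hz _ _ h5 => hz (sub_eq_zero.2 h5)
    · exact (Gnr.of_codis (Eventually.of_forall fun z => trivial)).mono
        fun z _ h1 h2 => absurd ⟨h1, h2⟩ hk
  have hdich : Gnr fun z => ∃ ij : ℕ × ℕ, ij.1 < ij.2 ∧ ij.2 ≤ B ∧ ∀ u v,
      h u (σ^[ij.1] z) * h v (σ^[ij.2] z) = h v (σ^[ij.1] z) * h u (σ^[ij.2] z) := by
    refine ((g1.and g2).and ((gnr_orbit hσ hpt).and (gnr_orbit hσ hGn))).mono ?_
    rintro z ⟨⟨e1, e2⟩, e3, e4⟩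
    by_contra hcon
    push Not at hcon
    obtain ⟨m, hmB, hm0⟩ := huni (fun m => t (σ^[m] z)) (fun m j => h j (σ^[m] z))
      { aff := ⟨α, β, fun m => by rw [Function.iterate_succ_apply', hαβ]⟩
        inj := by
          intro i j hij hjB h5
          apply e2 i (j - i) (by omega) (by omega)
          rw [← Function.iterate_add_apply, Nat.sub_add_cancel hij.le]
          exact h5.symm
        ne := fun m _ => (e3 m).1
        eqn := by
          intro j
          refine ⟨P j, hne j, hdeg j, fun m _ => ?_⟩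
          rw [← e1 j m]
          refine Finset.sum_congr rfl fun k _ => ?_
          rw [← Function.iterate_add_apply, Nat.add_comm m k]
        on := fun m _ F hF => (e3 m).2 F hF
        diff := fun i j hij hjB => hcon (i, j) hij hjB }
    exact e4 m (hm0 G hG hAG)
  obtain ⟨⟨i, j⟩, hij⟩ := pigeon hdich
  have hlt : i < j ∧ j ≤ B := by
    by_contra hcon
    apply hij
    refine Set.Countable.mono ?_ Set.countable_empty
    rintro z ⟨h1, h2, -⟩
    exact absurd ⟨h1, h2⟩ hcon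
  obtain ⟨k, rfl⟩ : ∃ k, j = k + i := ⟨j - i, by omega⟩
  refine ⟨k, by omega, by omega, ?_⟩
  have hD : ∀ u v, ∀ᶠ z in codiscrete ℂ, h u (σ^[k] z) * h v z = h v (σ^[k] z) * h u z := by
    intro u v
    have hDm : Meromorphic fun z => h u (σ^[k] z) * h v z - h v (σ^[k] z) * h u z :=
      (((hσ.iter k).mero (hm u)).mul (hm v)).sub (((hσ.iter k).mero (hm v)).mul (hm u))
    have h2 : ∀ᶠ z in codiscrete ℂ, (fun z => h u (σ^[k] z) * h v z -
        h v (σ^[k] z) * h u z) (σ^[i] z) = 0 := by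
      refine mero_zero ((hσ.iter i).mero hDm) fun hc => hij (hc.mono ?_)
      rintro z ⟨-, -, hz⟩
      change h u (σ^[k] (σ^[i] z)) * h v (σ^[i] z) - h v (σ^[k] (σ^[i] z)) * h u (σ^[i] z) = 0
      rw [← Function.iterate_add_apply]
      have h3 := hz u v
      simp only at h3
      linear_combination -h3
    have h3 := (hσ.iter i).zero hDm h2
    filter_upwards [h3] with z hz
    exact sub_eq_zero.1 hz
  have h2 : ∀ᶠ z in codiscrete ℂ, f (σ^[k] z) = f z := by
    have h3 : ∀ᶠ z in codiscrete ℂ, ∀ u v, h u (σ^[k] z) * h v z = h v (σ^[k] z) * h u z :=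
      eventually_all.2 fun u => eventually_all.2 fun v => hD u v
    filter_upwards [h3, hr, (hσ.iter k).pull hr] with z e1 e2 e3
    exact rep_eq' e3 e2 fun u v => e1 u v
  exact holMap_ext' (Pool.Agent.Y189.DC.HolMap.comp hf (hσ.iter k).ent) hf h2

end Pool.Agent.Q309.DU
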