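import Pool.Agent.Q309.DU.Run
import Pool.Agent.Q309.DU.UniF
import Pool.Agent.TH143.HE.PCur

/-!
Entire curves given by functional equations of bounded complexity and runs of rational points.
-/

set_option autoImplicit false

namespace Pool.Agent.Q309.DU

open Filter Topology Set MvPolynomial
open scoped LinearAlgebra.Projectivization
open Pool.Agent.TH143.EL (HolMap InV Rep)
open Pool.Agent.TH143.HE
open Pool.Agent.Q1.SL

variable {K : Type} [Field K] {N : ℕ}

/-- All nonconstant entire curves in `X` lie in `Z`. Here `X` and `Z` are the projective varieties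
given, via `σ : K → ℂ`, by the forms in `I` and in `I'`. For `I' = ⊤` the variety `Z` is empty, and
this is the (Brody) hyperbolicity of `X`. -/
def HypIn (σ : K →+* ℂ) (I I' : Ideal (MvPolynomial (Fin (N + 1)) K)) : Prop :=
  ∀ f : ℂ → ℙ ℂ (Fin (N + 1) → ℂ), HolMap f → (∀ z, IsPtP σ I (f z).rep) → (∃ z w, f z ≠ f w) →
    ∀ z, IsPtP σ I' (f z).rep

/-- All nonconstant entire curves in `X` given by `q`-difference equations with polynomial
coefficients, where `q` is not zero and not a root of unity, lie in `Z`. -/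
def QCurvesIn (σ : K →+* ℂ) (I I' : Ideal (MvPolynomial (Fin (N + 1)) K)) : Prop :=
  ∀ (r e : ℕ) (q : ℂ), q ≠ 0 → (∀ m : ℕ, 0 < m → q ^ m ≠ 1) →
    ∀ f : ℂ → ℙ ℂ (Fin (N + 1) → ℂ), HolMap f → (∀ z, IsPtP σ I (f z).rep) → (∃ z w, f z ≠ f w) →
      LinCurve r e (fun z => q * z) (fun z => z) f → ∀ z, IsPtP σ I' (f z).rep

/-- For all `r`, `e` there is a number `B` such that for all nonconstant entire functions `s` and all
entire functions `t` with `t (s z) = α t z + β` and `t ∘ s^k ≠ t` for `0 < k ≤ B`, all entire curves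
`f` in `X` given by linear functional equations `∑ P_k (t z) h (s^k z) = 0`, `k ≤ r`, with polynomials
`P_k` of degree at most `e`, lie in `Z` or satisfy `f ∘ s^k = f` for some `0 < k ≤ B`. -/
def FCurvesIn (σ : K →+* ℂ) (I I' : Ideal (MvPolynomial (Fin (N + 1)) K)) : Prop :=
  ∀ r e : ℕ, ∃ B : ℕ, ∀ (s t : ℂ → ℂ) (α β : ℂ), Differentiable ℂ s → (∃ z w, s z ≠ s w) →
    Differentiable ℂ t → (∀ z, t (s z) = α * t z + β) →
    (∀ k, 0 < k → k ≤ B → ∃ z, t (s^[k] z) ≠ t z) →
    ∀ f : ℂ → ℙ ℂ (Fin (N + 1) → ℂ), HolMap f → (∀ z, IsPtP σ I (f z).rep) → LinCurve r e s t f →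
      (∀ z, IsPtP σ I' (f z).rep) ∨ ∃ k, 0 < k ∧ k ≤ B ∧ ∀ z, f (s^[k] z) = f z

/-- If a sequence of points of `X(L)` outside of `Z` satisfies `DSeq r e B`, then two of the points
`x 0, ..., x B` are equal. -/
def RunsIn (L : Type) [Field L] [Algebra K L] (I I' : Ideal (MvPolynomial (Fin (N + 1)) K))
    (r e B : ℕ) : Prop :=
  ∀ x : ℕ → Fin (N + 1) → L, DSeq r e B x → (∀ m ≤ B, IsPtP (algebraMap K L) I (x m)) →
    (∀ m ≤ B, ¬ IsPtP (algebraMap K L) I' (x m)) →
      ∃ i j, i < j ∧ j ≤ B ∧ ∀ u v, x i u * x j v = x i v * x j u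

/-- For all `r`, `e` there is ONE number `B` with `RunsIn L I I' r e B` for ALL extensions `L` of `K`
with an embedding in `ℂ` which extends `σ`. -/
def UniformRuns (σ : K →+* ℂ) (I I' : Ideal (MvPolynomial (Fin (N + 1)) K)) : Prop :=
  ∀ r e : ℕ, ∃ B : ℕ, ∀ (L : Type) [Field L] [Algebra K L] (τ : L →+* ℂ),
    τ.comp (algebraMap K L) = σ → RunsIn L I I' r e B

/-- For all finite extensions `L` of `K` and all `r`, `e` there is a number `B` with
`RunsIn L I I' r e B`. -/
def FieldRuns (I I' : Ideal (MvPolynomial (Fin (N + 1)) K)) : Prop :=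
  ∀ (L : Type) [Field L] [NumberField L] [Algebra K L] (r e : ℕ), ∃ B : ℕ, RunsIn L I I' r e B

/-- The set `X(L)`, without the points of `Z`, is finite for all finite extensions `L` of `K`. -/
def FinIn (I I' : Ideal (MvPolynomial (Fin (N + 1)) K)) : Prop :=
  ∀ (L : Type) [Field L] [NumberField L] [Algebra K L],
    {P : ℙ L (Fin (N + 1) → L) | IsPtP (algebraMap K L) I P.rep ∧
      ¬ IsPtP (algebraMap K L) I' P.rep}.Finite

/-- the forms of an ideal, with complex coefficients -/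
def formsOf (σ : K →+* ℂ) (I : Ideal (MvPolynomial (Fin (N + 1)) K)) :
    Set (MvPolynomial (Fin (N + 1)) ℂ) :=
  {P | ∃ F ∈ I, (∃ d, F.IsHomogeneous d) ∧ P = MvPolynomial.map σ F}

theorem formsOf_hom {σ : K →+* ℂ} {I : Ideal (MvPolynomial (Fin (N + 1)) K)} :
    ∀ P ∈ formsOf σ I, ∃ e, P.IsHomogeneous e := by
  rintro _ ⟨F, -, ⟨d, hd⟩, rfl⟩
  exact ⟨d, hd.map _⟩

theorem isPtP_iff {σ : K →+* ℂ} {I : Ideal (MvPolynomial (Fin (N + 1)) K)}
    {v : Fin (N + 1) → ℂ} : IsPtP σ I v ↔ ∀ P ∈ formsOf σ I, eval v P = 0 := by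
  constructor
  · rintro h _ ⟨F, hF, hF', rfl⟩
    rw [eval_map]
    exact h F hF hF'
  · intro h F hF hF'
    have h1 := h _ ⟨F, hF, hF', rfl⟩
    rwa [eval_map] at h1

theorem isPtP_tau {σ : K →+* ℂ} {L : Type} [Field L] [Algebra K L] {τ : L →+* ℂ}
    (hτ : τ.comp (algebraMap K L) = σ) {I : Ideal (MvPolynomial (Fin (N + 1)) K)}
    {v : Fin (N + 1) → L} : IsPtP σ I (fun j => τ (v j)) ↔ IsPtP (algebraMap K L) I v := by
  have h1 : ∀ G : MvPolynomial (Fin (N + 1)) K, eval₂ σ (fun j => τ (v j)) G =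
      τ (eval₂ (algebraMap K L) v G) := by
    intro G
    rw [← hτ]
    exact (eval₂_comp_left τ (algebraMap K L) v G).symm
  unfold IsPtP
  simp only [h1, map_eq_zero]

theorem ratIn_of_curvesIn {σ : K →+* ℂ} {I I' : Ideal (MvPolynomial (Fin (N + 1)) K)}
    (h : RatCurvesIn σ I I') (d : ℕ) : ∀ P ∈ formsOf σ I', RatIn (formsOf σ I) P d := by
  rintro P hP p hp1 hp2 ⟨s, t, i, j, hst⟩
  apply Polynomial.funext
  intro u
  rw [Polynomial.eval_zero, poly_eval]
  refine isPtP_iff.1 (h p (fun u => isPtP_iff.2 fun F hF => ?_) ⟨i, j, s, t, hst⟩ u) P hP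
  rw [← poly_eval, hp2 F hF, Polynomial.eval_zero]

theorem fCurvesIn_of_rat {σ : K →+* ℂ} {I I' : Ideal (MvPolynomial (Fin (N + 1)) K)}
    (h : RatCurvesIn σ I I') : FCurvesIn σ I I' := by
  intro r e
  obtain ⟨d, hd⟩ := seq_special (formsOf σ I) formsOf_hom r e
  refine ⟨d, ?_⟩
  rintro s t α β hs hsn ht hαβ hord f hf hI ⟨c, hm, hfe, hr⟩
  rcases fun_main ⟨hs, hsn⟩ ht hαβ hord (S := formsOf σ I) formsOf_hom
    (A := fun G => G ∈ formsOf σ I') (fun t x hx => by
      obtain ⟨m, hm1, hm2⟩ := hd t x hx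
      exact ⟨m, hm1, fun G hG hGA => hm2 G hG (ratIn_of_curvesIn h d G hGA)⟩) hf
    (fun z F hF => isPtP_iff.1 (hI z) F hF) hm hfe hr with h1 | h1
  · exact Or.inl fun z => isPtP_iff.2 fun P hP => h1 z P (formsOf_hom P hP) hP
  · exact Or.inr h1

theorem qCurvesIn_of_f {σ : K →+* ℂ} {I I' : Ideal (MvPolynomial (Fin (N + 1)) K)}
    (h : FCurvesIn σ I I') : QCurvesIn σ I I' := by
  intro r e q hq0 hqr f hf hI hnc hl
  obtain ⟨B, hB⟩ := h r e
  rcases hB (fun z => q * z) (fun z => z) q 0 (differentiable_id.const_mul q)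
    ⟨0, 1, by simpa using hq0.symm⟩ differentiable_id (fun z => by simp) (fun k hk _ => ⟨1, by
      simp only [mul_iter, mul_one]
      exact hqr k hk⟩) f hf hI hl with h1 | ⟨k, hk, -, hinv⟩
  · exact h1
  · exfalso
    obtain ⟨z, w, hzw⟩ := hnc
    exact hzw (const_of_dil hqr hf hl hk hinv z w)

theorem rat_of_qCurvesIn {σ : K →+* ℂ} {I I' : Ideal (MvPolynomial (Fin (N + 1)) K)}
    (h : QCurvesIn σ I I') : RatCurvesIn σ I I' := by
  intro p hp ⟨i, j, s, t, hst⟩ u
  have hp2 : ∀ F ∈ Ideal.span (formsOf σ I), aeval p F = 0 := by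
    intro F hF
    refine span_mem (FF := formsOf σ I) (fun F hF => ?_) hF
    apply Polynomial.funext
    intro u
    rw [Polynomial.eval_zero, poly_eval]
    exact isPtP_iff.1 (hp u) F hF
  obtain ⟨f, hf, hm, hr, hI, hnc, hGf⟩ := exists_curve (p := p) ⟨s, t, i, j, hst⟩ hp2
  let d := Finset.univ.sup fun j => (p j).natDegree
  have h1 := h 1 d 2 two_ne_zero (fun m hm h1 => by
    have h2 : (2 : ℕ) ^ m = 1 := by exact_mod_cast h1
    have h3 := Nat.one_lt_two_pow hm.ne'
    omega) f hf (fun z => isPtP_iff.2 fun P hP => hI z P (Ideal.subset_span hP)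
      (formsOf_hom P hP)) hnc ⟨fun j z => (p j).eval z, hm, fun j => by
        have h1 := lin_poly (p j) (d := d) (Finset.le_sup (f := fun j => (p j).natDegree)
          (Finset.mem_univ j)) (Polynomial.C 2 * Polynomial.X)
          ((Polynomial.natDegree_C_mul_le _ _).trans Polynomial.natDegree_X_le)
        have h2 : (fun z : ℂ => Polynomial.eval z (Polynomial.C (2 : ℂ) * Polynomial.X)) =
            fun z => 2 * z := by
          funext z
          rw [Polynomial.eval_mul, Polynomial.eval_C, Polynomial.eval_X]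
        rw [h2] at h1
        exact h1, hr⟩
  refine isPtP_iff.2 fun P hP => ?_
  rw [← poly_eval, hGf P (formsOf_hom P hP) fun z => isPtP_iff.1 (h1 z) P hP,
    Polynomial.eval_zero]

theorem uniformRuns_of_rat {σ : K →+* ℂ} {I I' : Ideal (MvPolynomial (Fin (N + 1)) K)}
    (h : RatCurvesIn σ I I') : UniformRuns σ I I' := by
  intro r e
  obtain ⟨d, hd⟩ := runs_special (formsOf σ I) formsOf_hom r e
  refine ⟨d, fun L _ _ τ hτ x hx hX hZ => ?_⟩
  rcases hd L τ x hx (fun m hm => isPtP_iff.1 ((isPtP_tau hτ).2 (hX m hm))) with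
    h1 | ⟨m, hm, h1⟩
  · exact h1
  · exfalso
    exact hZ m hm ((isPtP_tau hτ).1 (isPtP_iff.2 fun P hP =>
      h1 P (formsOf_hom P hP) (ratIn_of_curvesIn h d P hP)))

theorem fieldRuns_of_uniform [NumberField K] {σ : K →+* ℂ}
    {I I' : Ideal (MvPolynomial (Fin (N + 1)) K)} (h : UniformRuns σ I I') : FieldRuns I I' := by
  intro L _ _ _ r e
  let _ : Algebra K ℂ := σ.toAlgebra
  have halg : Algebra.IsAlgebraic K L := Algebra.IsAlgebraic.tower_top (K := ℚ) K
  let τ : L →ₐ[K] ℂ := IsAlgClosed.lift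
  have hτ : (τ : L →+* ℂ).comp (algebraMap K L) = σ := by
    ext r
    exact τ.commutes _
  obtain ⟨B, hB⟩ := h r e
  exact ⟨B, hB L τ hτ⟩

theorem rat_of_fieldRuns [NumberField K] {σ : K →+* ℂ}
    {I I' : Ideal (MvPolynomial (Fin (N + 1)) K)} (h : FieldRuns I I') : RatCurvesIn σ I I' := by
  rw [ratCurvesIn_iff]
  intro p hp
  let _ : Algebra K ℂ := σ.toAlgebra
  have hp1 : RCur ((algebraMap K ℂ).comp (RingHom.id K)) I I' p := hp
  obtain ⟨L, _, _, _, p', hp'⟩ := RCur.spec (k := K) (E := ℂ) (RingHom.id K) hp1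
  have hchar : CharZero L := charZero_of_injective_algebraMap (algebraMap K L).injective
  have hfin : FiniteDimensional ℚ L := FiniteDimensional.trans ℚ K L
  have hnf : NumberField L := ⟨⟩
  rw [RingHom.comp_id] at hp'
  obtain ⟨h1, ⟨G, hG, hGh, hGne⟩, hnc⟩ := hp'
  obtain ⟨j, k, u, v, hjk⟩ := (nc_iff p').1 hnc
  obtain ⟨B, hB⟩ := h L 1 (Finset.univ.sup fun j => (p' j).natDegree)
  obtain ⟨x, hx1, hx2, hx3⟩ := exists_run (p := p') ⟨u, v, j, k, hjk⟩
    (d := Finset.univ.sup fun j => (p' j).natDegree)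
    (fun j => Finset.le_sup (f := fun j => (p' j).natDegree) (Finset.mem_univ j)) hGne B
  obtain ⟨a, b, hab, hb, h2⟩ := hB x hx1 (fun m hm F hF hFh => by
      obtain ⟨z, -, hz⟩ := hx3 m hm
      rw [show x m = fun j => (p' j).eval z from funext hz, ← eval₂_eval, h1 F hF hFh,
        Polynomial.eval_zero]) (fun m hm hcon => by
      obtain ⟨z, hz0, hz⟩ := hx3 m hm
      apply hz0
      rw [eval₂_eval, ← show x m = fun j => (p' j).eval z from funext hz]
      exact hcon G hG hGh)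
  obtain ⟨u, v, huv⟩ := hx2 a b hab hb
  exact huv (h2 u v)

theorem isPtP_mk {L : Type} [Field L] [Algebra K L] {I : Ideal (MvPolynomial (Fin (N + 1)) K)}
    {x : Fin (N + 1) → L} (hx : x ≠ 0) :
    IsPtP (algebraMap K L) I (Projectivization.mk L x hx).rep ↔ IsPtP (algebraMap K L) I x := by
  obtain ⟨a, ha⟩ := Projectivization.exists_smul_eq_mk_rep L x hx
  have h1 : (Projectivization.mk L x hx).rep = fun j => (a : L) * x j := by
    rw [← ha]
    rfl
  rw [h1]
  constructor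
  · rintro h G hG ⟨d, hd⟩
    have h2 := h G hG ⟨d, hd⟩
    rw [eval₂_smul_homog _ (a : L) x hd] at h2
    exact (mul_eq_zero.1 h2).resolve_left (pow_ne_zero _ a.ne_zero)
  · rintro h G hG ⟨d, hd⟩
    rw [eval₂_smul_homog _ (a : L) x hd, h G hG ⟨d, hd⟩, mul_zero]

theorem fieldRuns_of_finite [NumberField K]
    {I I' : Ideal (MvPolynomial (Fin (N + 1)) K)} (h : FinIn I I') : FieldRuns I I' := by
  classical
  intro L _ _ _ r e
  have hfin := h L
  refine ⟨hfin.toFinset.card, fun x hx hX hZ => ?_⟩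
  set B := hfin.toFinset.card with hBdef
  have hmaps : ∀ m ∈ Finset.range (B + 1), ∀ hm : x m ≠ 0,
      Projectivization.mk L (x m) hm ∈ hfin.toFinset := by
    intro m hm hne
    rw [Set.Finite.mem_toFinset]
    exact ⟨(isPtP_mk hne).2 (hX m (by simpa [Nat.lt_succ_iff] using hm)), fun hc =>
      hZ m (by simpa [Nat.lt_succ_iff] using hm) ((isPtP_mk hne).1 hc)⟩
  let g : ℕ → ℙ L (Fin (N + 1) → L) := fun m =>
    if hm : x m ≠ 0 then Projectivization.mk L (x m) hm
    else Projectivization.mk L (fun _ => 1) (Function.ne_iff.2 ⟨0, one_ne_zero⟩)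
  obtain ⟨a, ha, b, hb, hab, hg⟩ := Finset.exists_ne_map_eq_of_card_lt_of_maps_to
    (s := Finset.range (B + 1)) (t := hfin.toFinset) (by rw [Finset.card_range]; omega)
    (f := g) (fun m hm => by
      have hm' : m ≤ B := by simpa [Nat.lt_succ_iff] using hm
      have hne := hx.ne m hm'
      simp only [g, dif_pos hne]
      exact hmaps m (by simpa using hm) hne)
  have key : ∀ a b : ℕ, a ≤ B → b ≤ B → g a = g b → ∀ u v, x a u * x b v = x a v * x b u := by
    intro a b ha hb hg u v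
    have hna := hx.ne a ha
    have hnb := hx.ne b hb
    simp only [g, dif_pos hna, dif_pos hnb] at hg
    rw [Projectivization.mk_eq_mk_iff'] at hg
    obtain ⟨c, hc⟩ := hg
    rw [← hc]
    simp only [Pi.smul_apply, smul_eq_mul]
    ring
  have ha' : a ≤ B := by simpa [Nat.lt_succ_iff] using ha
  have hb' : b ≤ B := by simpa [Nat.lt_succ_iff] using hb
  rcases lt_or_gt_of_ne hab with h1 | h1
  · exact ⟨a, b, h1, hb', key a b ha' hb' hg⟩
  · exact ⟨b, a, h1, ha', key b a hb' ha' hg.symm⟩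

/-- **The equivalences.** -/
theorem lang_main [NumberField K] (σ : K →+* ℂ) (I I' : Ideal (MvPolynomial (Fin (N + 1)) K)) :
    [RatCurvesIn σ I I', QCurvesIn σ I I', FCurvesIn σ I I', UniformRuns σ I I',
      FieldRuns I I'].TFAE ∧ (HypIn σ I I' → QCurvesIn σ I I') ∧
      (FinIn I I' → FieldRuns I I') := by
  refine ⟨?_, fun h r e q _ _ f hf hI hnc _ => h f hf hI hnc, fieldRuns_of_finite⟩
  tfae_have 1 → 3 := fCurvesIn_of_rat
  tfae_have 3 → 2 := qCurvesIn_of_f
  tfae_have 2 → 1 := rat_of_qCurvesIn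
  tfae_have 1 → 4 := uniformRuns_of_rat
  tfae_have 4 → 5 := fieldRuns_of_uniform
  tfae_have 5 → 1 := rat_of_fieldRuns
  tfae_finish

end Pool.Agent.Q309.DU
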