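import Pool.Agent.Q309.DU.Fun

/-!
Rational curves of bounded degree and entire curves given by linear functional equations of bounded
complexity.
-/

set_option autoImplicit false

namespace Pool.Agent.Q309.DU

open Filter Topology Set MvPolynomial
open scoped LinearAlgebra.Projectivization
open Pool.Agent.TH143.EL
open Pool.Agent.Y189.DC (NCE no_fixed)
open Pool.Agent.H533R3.SL (Uniruled)
open Pool.Agent.Q1.SL

variable {n : ℕ}

/-- The curve `f` has meromorphic homogeneous coordinates each of which satisfies a nontrivial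
linear functional equation `∑ P_k (t z) h (σ^k z) = 0`, `k ≤ r`, with polynomials `P_k` of degree at
most `e`. -/
def LinCurve (r e : ℕ) (σ t : ℂ → ℂ) (f : ℂ → ℙ ℂ (Fin (n + 1) → ℂ)) : Prop :=
  ∃ h : Fin (n + 1) → ℂ → ℂ, (∀ j, Meromorphic (h j)) ∧ (∀ j, LinEq r e σ t (h j)) ∧
    ∀ᶠ z in codiscrete ℂ, Rep (f z) fun j => h j z

/-- For all `r`, `e` there is a form `G` which does not vanish on `X` such that all nonconstant
entire curves in `X` given by `q`-difference equations of order at most `r` with polynomial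
coefficients of degree at most `e`, for all `q` which are not zero and not roots of unity, lie in
`G = 0`. -/
def QDeg (I : Ideal (MvPolynomial (Fin (n + 1)) ℂ)) : Prop :=
  ∀ r e : ℕ, ∃ G : MvPolynomial (Fin (n + 1)) ℂ, (∃ d, G.IsHomogeneous d) ∧ G ∉ I ∧
    ∀ q : ℂ, q ≠ 0 → (∀ m : ℕ, 0 < m → q ^ m ≠ 1) → ∀ f : ℂ → ℙ ℂ (Fin (n + 1) → ℂ), HolMap f →
      (∀ z, InV I (f z)) → (∃ z w, f z ≠ f w) → LinCurve r e (fun z => q * z) (fun z => z) f →
        ∀ z, eval (f z).rep G = 0

/-- For all `r`, `e` there are a form `G` which does not vanish on `X` and a number `B` with the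
following property. Let `σ` be a nonconstant entire function and `t` an entire function such that
`t (σ z) = α t z + β` with constants `α`, `β`, and `t ∘ σ^k ≠ t` for `0 < k ≤ B`. Then all entire
curves `f` in `X` given by linear functional equations `∑ P_k (t z) h (σ^k z) = 0`, `k ≤ r`, with
polynomials `P_k` of degree at most `e`, lie in `G = 0` or satisfy `f ∘ σ^k = f` for some
`0 < k ≤ B`. -/
def FDeg (I : Ideal (MvPolynomial (Fin (n + 1)) ℂ)) : Prop :=
  ∀ r e : ℕ, ∃ (G : MvPolynomial (Fin (n + 1)) ℂ) (B : ℕ), (∃ d, G.IsHomogeneous d) ∧ G ∉ I ∧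
    ∀ (σ t : ℂ → ℂ) (α β : ℂ), Differentiable ℂ σ → (∃ z w, σ z ≠ σ w) → Differentiable ℂ t →
      (∀ z, t (σ z) = α * t z + β) → (∀ k, 0 < k → k ≤ B → ∃ z, t (σ^[k] z) ≠ t z) →
      ∀ f : ℂ → ℙ ℂ (Fin (n + 1) → ℂ), HolMap f → (∀ z, InV I (f z)) → LinCurve r e σ t f →
        (∀ z, eval (f z).rep G = 0) ∨ ∃ k, 0 < k ∧ k ≤ B ∧ ∀ z, f (σ^[k] z) = f z

theorem mul_iter (q : ℂ) (k : ℕ) (z : ℂ) : (fun z => q * z)^[k] z = q ^ k * z := by
  induction k generalizing z with
  | zero => simp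
  | succ k ih =>
    rw [Function.iterate_succ_apply, ih, pow_succ]
    ring

/-- a curve invariant under a dilation of infinite order is constant -/
theorem const_of_dil {q : ℂ} (hqr : ∀ m : ℕ, 0 < m → q ^ m ≠ 1)
    {f : ℂ → ℙ ℂ (Fin (n + 1) → ℂ)} (hf : HolMap f) {r e : ℕ} {σ t : ℂ → ℂ}
    (hl : LinCurve r e σ t f) {k : ℕ} (hk : 0 < k)
    (hinv : ∀ z, f ((fun z => q * z)^[k] z) = f z) (z w : ℂ) : f z = f w := by
  by_contra hnc
  obtain ⟨h, hm, -, hr⟩ := hl
  have hd : Differentiable ℂ fun z : ℂ => q ^ k * z := differentiable_id.const_mul _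
  obtain ⟨s, hs, hsz⟩ := no_fixed hf hm hr ⟨z, w, hnc⟩ (G := fun z => q ^ k * z) hd
    (fun z => by rw [← mul_iter]; exact hinv z) (p := 0) (by simp)
  apply hqr (k * s) (Nat.mul_pos hk hs)
  have h1 := hsz 1
  rwa [mul_iter, mul_one, ← pow_mul] at h1

theorem span_mem {FF : Set (MvPolynomial (Fin (n + 1)) ℂ)}
    {A : Type} [CommRing A] [Algebra ℂ A] {x : Fin (n + 1) → A}
    (h : ∀ F ∈ FF, aeval x F = 0) {F : MvPolynomial (Fin (n + 1)) ℂ} (hF : F ∈ Ideal.span FF) :
    aeval x F = 0 := by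
  have h1 : Ideal.span FF ≤ RingHom.ker (aeval x : MvPolynomial (Fin (n + 1)) ℂ →ₐ[ℂ] A) := by
    rw [Ideal.span_le]
    exact h
  exact h1 hF

theorem fDeg_of_ratDeg (FF : Set (MvPolynomial (Fin (n + 1)) ℂ))
    (hhom : ∀ F ∈ FF, ∃ e, F.IsHomogeneous e) (h : RatDeg (Ideal.span FF)) :
    FDeg (Ideal.span FF) := by
  intro r e
  obtain ⟨d, hd⟩ := seq_special FF hhom r e
  obtain ⟨G, hG1, hG2, hG3⟩ := h d
  refine ⟨G, d, hG1, hG2, ?_⟩
  intro σ t α β hσ hσn ht hαβ hord f hf hI hl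
  obtain ⟨h, hm, hfe, hr⟩ := hl
  rcases fun_main ⟨hσ, hσn⟩ ht hαβ hord hhom hd hf
    (fun z F hF => hI z F (Ideal.subset_span hF) (hhom F hF)) hm hfe hr with h1 | h1
  · exact Or.inl fun z => h1 z G hG1 fun p hp1 hp2 hp3 =>
      hG3 p hp1 (fun F hF => span_mem hp2 hF) hp3
  · exact Or.inr h1

theorem qDeg_of_fDeg {I : Ideal (MvPolynomial (Fin (n + 1)) ℂ)} (h : FDeg I) : QDeg I := by
  intro r e
  obtain ⟨G, B, hG1, hG2, hG3⟩ := h r e
  refine ⟨G, hG1, hG2, ?_⟩
  intro q hq0 hqr f hf hI hnc hl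
  rcases hG3 (fun z => q * z) (fun z => z) q 0 (differentiable_id.const_mul q)
    ⟨0, 1, by simpa using hq0.symm⟩ differentiable_id (fun z => by simp) (fun k hk _ => ⟨1, by
      simp only [mul_iter, mul_one]
      exact hqr k hk⟩) f hf hI hl with h1 | ⟨k, hk, -, hinv⟩
  · exact h1
  · exfalso
    obtain ⟨z, w, hzw⟩ := hnc
    exact hzw (const_of_dil hqr hf hl hk hinv z w)

/-- rational curves as entire curves given by `q`-difference equations -/
theorem lin_poly {d : ℕ} (p : Polynomial ℂ) (hp : p.natDegree ≤ d) (σ : Polynomial ℂ)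
    (hσ : σ.natDegree ≤ 1) :
    LinEq 1 d (fun z => σ.eval z) (fun z => z) fun z => p.eval z := by
  classical
  by_cases h0 : p = 0
  · refine ⟨fun _ => 1, ⟨0, Nat.zero_le _, one_ne_zero⟩, fun k => by simp,
      Eventually.of_forall fun z => ?_⟩
    rw [h0]
    simp
  · refine ⟨fun k => if k = 0 then -(p.comp σ) else p, ⟨1, le_rfl, by simpa using h0⟩,
      fun k => ?_, Eventually.of_forall fun z => ?_⟩
    · by_cases hk : k = 0
      · simp only [if_pos hk]
        rw [Polynomial.natDegree_neg]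
        refine Polynomial.natDegree_comp_le.trans ?_
        calc p.natDegree * σ.natDegree ≤ d * 1 := Nat.mul_le_mul hp hσ
          _ = d := mul_one d
      · simp only [if_neg hk]
        exact hp
    · rw [Finset.sum_range_succ, Finset.sum_range_one]
      simp only [if_pos, if_neg one_ne_zero, Function.iterate_zero, Function.iterate_one, id,
        Polynomial.eval_neg, Polynomial.eval_comp]
      ring

/-- the entire curve of a rational curve -/
theorem exists_curve {p : Fin (n + 1) → Polynomial ℂ} (hp3 : NonC p)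
    {I : Ideal (MvPolynomial (Fin (n + 1)) ℂ)} (hp2 : ∀ F ∈ I, aeval p F = 0) :
    ∃ f : ℂ → ℙ ℂ (Fin (n + 1) → ℂ), HolMap f ∧ (∀ j, Meromorphic fun z => (p j).eval z) ∧
      (∀ᶠ z in codiscrete ℂ, Rep (f z) fun j => (p j).eval z) ∧ (∀ z, InV I (f z)) ∧
      (∃ z w, f z ≠ f w) ∧ ∀ G : MvPolynomial (Fin (n + 1)) ℂ, (∃ d, G.IsHomogeneous d) →
        (∀ z, eval (f z).rep G = 0) → aeval p G = 0 := by
  have hm : ∀ j, Meromorphic fun z => (p j).eval z := fun j z =>
    ((p j).differentiable.analyticAt z).meromorphicAt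
  have hev : ∀ (F : MvPolynomial (Fin (n + 1)) ℂ) (w : ℂ),
      (aeval p F).eval w = eval (fun j => (p j).eval w) F := fun F w => poly_eval p F w
  have hne : ∃ j, ¬ ∀ᶠ z in codiscrete ℂ, (p j).eval z = 0 := by
    obtain ⟨s, t, i, j, hst⟩ := hp3
    have h1 : ∃ l, p l ≠ 0 := by
      by_contra hcon
      push Not at hcon
      apply hst
      rw [hcon i, hcon j, Polynomial.eval_zero, Polynomial.eval_zero]
    obtain ⟨l, hl⟩ := h1
    refine ⟨l, fun h2 => ?_⟩
    obtain ⟨z, h3, h4⟩ := (h2.and (poly_codis hl)).exists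
    exact h4 h3
  obtain ⟨f, hf, hr⟩ := codis_rep hm hne
  refine ⟨f, hf, hm, hr, fun z F hF hFh => ?_, ?_, fun G hG hGf => ?_⟩
  · refine form_all hf hFh ?_ z
    filter_upwards [hr] with y hy
    rw [eval_rep hy hFh, ← hev, hp2 F hF, Polynomial.eval_zero]
  · by_contra hcon
    push Not at hcon
    obtain ⟨s, t, i, j, hst⟩ := hp3
    set v := (f 0).rep with hv
    have hv0 : v ≠ 0 := (f 0).rep_nonzero
    obtain ⟨k, hk⟩ := Function.ne_iff.1 hv0
    have hk' : v k ≠ 0 := hk
    have h1 : ∀ u, p u * Polynomial.C (v k) = p k * Polynomial.C (v u) := by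
      intro u
      rw [← sub_eq_zero]
      by_contra hne'
      obtain ⟨z, h2, h3⟩ := ((poly_codis hne').and hr).exists
      apply h2
      have h4 := ((rep_iff h3).1 (rep_rep (f z))).2 u k
      rw [hcon z 0, ← hv] at h4
      rw [Polynomial.eval_sub, Polynomial.eval_mul, Polynomial.eval_mul, Polynomial.eval_C,
        Polynomial.eval_C]
      exact sub_eq_zero.2 h4
    have h2 : ∀ u w, (p u).eval w = (p k).eval w * (v u / v k) := by
      intro u w
      have h3 := congrArg (Polynomial.eval w) (h1 u)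
      rw [Polynomial.eval_mul, Polynomial.eval_mul, Polynomial.eval_C, Polynomial.eval_C] at h3
      rw [mul_div_assoc', eq_div_iff hk']
      exact h3
    apply hst
    rw [h2 i s, h2 j t, h2 j s, h2 i t]
    ring
  · by_contra hne'
    obtain ⟨z, h2, h3⟩ := ((poly_codis hne').and hr).exists
    apply h2
    rw [hev]
    exact (eval_rep h3 hG).1 (hGf z)

theorem ratDeg_of_qDeg {I : Ideal (MvPolynomial (Fin (n + 1)) ℂ)} (h : QDeg I) : RatDeg I := by
  intro d
  obtain ⟨G, hG1, hG2, hG3⟩ := h 1 d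
  refine ⟨G, hG1, hG2, fun p hp1 hp2 hp3 => ?_⟩
  obtain ⟨f, hf, hm, hr, hI, hnc, hGf⟩ := exists_curve hp3 hp2
  refine hGf G hG1 (hG3 2 two_ne_zero (fun m hm h1 => ?_) f hf hI hnc
    ⟨fun j z => (p j).eval z, hm, fun j => ?_, hr⟩)
  · have h2 : (2 : ℕ) ^ m = 1 := by exact_mod_cast h1
    have h3 := Nat.one_lt_two_pow hm.ne'
    omega
  · have h1 := lin_poly (p j) (hp1 j) (Polynomial.C 2 * Polynomial.X)
      ((Polynomial.natDegree_C_mul_le _ _).trans Polynomial.natDegree_X_le)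
    have h2 : (fun z : ℂ => Polynomial.eval z (Polynomial.C (2 : ℂ) * Polynomial.X)) =
        fun z => 2 * z := by
      funext z
      rw [Polynomial.eval_mul, Polynomial.eval_C, Polynomial.eval_X]
    rw [h2] at h1
    exact h1

/-- **The equivalence.** -/
theorem q_tfae (FF : Set (MvPolynomial (Fin (n + 1)) ℂ))
    (hhom : ∀ F ∈ FF, ∃ e, F.IsHomogeneous e) (hprime : (Ideal.span FF).IsPrime) :
    List.TFAE [¬ Uniruled (Ideal.span FF), RatDeg (Ideal.span FF), QDeg (Ideal.span FF),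
      FDeg (Ideal.span FF)] := by
  tfae_have 1 ↔ 2 := not_uniruled_iff hprime
  tfae_have 2 → 4 := fDeg_of_ratDeg FF hhom
  tfae_have 4 → 3 := qDeg_of_fDeg
  tfae_have 3 → 2 := ratDeg_of_qDeg
  tfae_finish

end Pool.Agent.Q309.DU
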