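import Pool.Agent.Y189.DD.RC
import Pool.Agent.Q1.SL.Key

/-!
Sequences of points of projective varieties given by linear difference equations with polynomial
coefficients along an orbit of an affine map: rational curves of bounded degree.
-/

set_option autoImplicit false

namespace Pool.Agent.Q309.DU

open MvPolynomial Filter
open Pool.Agent.TH143.DE (LinRec ratB ev_ne)
open Pool.Agent.TH143.TW (Per EC Tow tow_rat)
open Pool.Agent.Y189.DD (RC tow_good')
open Pool.Agent.Y377.ST (theta_ne)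
open Pool.Agent.Q1.SL

variable {n : ℕ}

/-- the dichotomy for one sequence -/
theorem seq_dich {α β : ℂ} {t : ℕ → ℂ} (ht : ∀ m, t (m + 1) = α * t m + β)
    (hinj : Function.Injective t) {s : Set (MvPolynomial (Fin (n + 1)) ℂ)}
    (hs : ∀ G ∈ s, ∃ d, G.IsHomogeneous d) {x : ℕ → Fin (n + 1) → ℂ} (hx0 : ∀ m, x m ≠ 0)
    {r : ℕ} {P : Fin (n + 1) → ℕ → Polynomial ℂ} (hP : ∀ j, ∃ k ≤ r, P j k ≠ 0)
    (hrec : ∀ j m, ∑ k ∈ Finset.range (r + 1), (P j k).eval (t m) * x (m + k) j = 0)
    (hX : ∀ m, ∀ G ∈ s, eval (x m) G = 0) : Per x ∨ ∃ m, RC s (x m) := by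
  by_cases hrc : ∃ m, RC s (x m)
  · exact Or.inr hrc
  left
  push Not at hrc
  have htow : Tow (ratB t hinj) := by
    refine tow_rat hinj (Polynomial.C α * Polynomial.X + Polynomial.C β) (fun m => ?_) ?_
    · rw [ht, Polynomial.eval_add, Polynomial.eval_mul, Polynomial.eval_C, Polynomial.eval_X,
        Polynomial.eval_C]
    · refine ⟨2, fun k _ => if k = 0 then α else if k = 1 then -(α + 1) else 1, fun k => ?_,
        ⟨2, le_rfl, ?_⟩, ?_⟩
      · by_cases h0 : k = 0
        · simp only [if_pos h0]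
          exact ⟨α, Eventually.of_forall fun _ => rfl⟩
        · by_cases h1 : k = 1
          · simp only [if_neg h0, if_pos h1]
            exact ⟨-(α + 1), Eventually.of_forall fun _ => rfl⟩
          · simp only [if_neg h0, if_neg h1]
            exact ⟨1, Eventually.of_forall fun _ => rfl⟩
      · intro h
        obtain ⟨m, hm⟩ := h.exists
        simp at hm
      · refine Eventually.of_forall fun m => ?_
        simp only [Finset.sum_range_succ, Finset.sum_range_zero]
        have h1 : t (m + 1) = α * t m + β := ht m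
        have h2 : t (m + 2) = α * t (m + 1) + β := ht (m + 1)
        simp only [if_pos, if_neg one_ne_zero, if_neg two_ne_zero, add_zero, zero_add,
          show ¬ (2 : ℕ) = 1 by norm_num, if_false]
        rw [h2, h1]
        ring
  refine tow_good' hs htow _ (Eventually.of_forall fun m => hx0 m) (fun j => ?_)
    (Eventually.of_forall fun m => hX m) (Eventually.of_forall fun m => hrc m)
  obtain ⟨k0, hk0, hPk0⟩ := hP j
  refine ⟨r, fun k m => (P j k).eval (t m), fun k => ⟨P j k, 1, one_ne_zero,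
    Eventually.of_forall fun m => by rw [Polynomial.eval_one, div_one]⟩,
    ⟨k0, hk0, fun h0 => ?_⟩, Eventually.of_forall fun m => hrec j m⟩
  obtain ⟨m, h1, h2⟩ := (h0.and (ev_ne hinj hPk0)).exists
  exact h2 h1

/-- The points `x 0, ..., x B` are different points of the projective variety of `S`; their
homogeneous coordinates satisfy linear difference equations
`∑ P_k (t m) x (m + k) j = 0`, `m ≤ B`, `k ≤ r`, whose coefficients are polynomials of degree at
most `e` at the points `t m` of an orbit of an affine map `t ↦ α t + β`; the points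
`t 0, ..., t B` are different. -/
structure PSeq (r e : ℕ) (S : Set (MvPolynomial (Fin (n + 1)) ℂ)) (B : ℕ) (t : ℕ → ℂ)
    (x : ℕ → Fin (n + 1) → ℂ) : Prop where
  aff : ∃ α β : ℂ, ∀ m, t (m + 1) = α * t m + β
  inj : ∀ i j, i < j → j ≤ B → t i ≠ t j
  ne : ∀ m ≤ B, x m ≠ 0
  eqn : ∀ j, ∃ P : ℕ → Polynomial ℂ, (∃ k ≤ r, P k ≠ 0) ∧ (∀ k, (P k).natDegree ≤ e) ∧
    ∀ m ≤ B, ∑ k ∈ Finset.range (r + 1), (P k).eval (t m) * x (m + k) j = 0
  on : ∀ m ≤ B, ∀ F ∈ S, eval (x m) F = 0
  diff : ∀ i j, i < j → j ≤ B → ∃ u v, x i u * x j v ≠ x i v * x j u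

/-- **The limit.** -/
theorem ultra_main {D r e : ℕ} {S : ℕ → Set (MvPolynomial (Fin (n + 1)) ℂ)}
    (hS : ∀ i, ∀ F ∈ S i, ∃ e, e ≤ D ∧ F.IsHomogeneous e) {t : ℕ → ℕ → ℂ}
    {x : ℕ → ℕ → Fin (n + 1) → ℂ} (h : ∀ i, PSeq r e (S i) i (t i) (x i)) :
    ∃ d0 m : ℕ, ∀ (G : ℕ → MvPolynomial (Fin (n + 1)) ℂ) (e' : ℕ),
      (∀ᶠ i in (hyperfilter ℕ : Filter ℕ), (G i).IsHomogeneous e') →
      (¬ ∀ᶠ i in (hyperfilter ℕ : Filter ℕ), eval (x i m) (G i) = 0) →
      ∀ᶠ i in (hyperfilter ℕ : Filter ℕ), ∃ p : Fin (n + 1) → Polynomial ℂ,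
        (∀ j, (p j).natDegree ≤ d0) ∧ (∀ F ∈ S i, aeval p F = 0) ∧ NonC p ∧
          aeval p (G i) ≠ 0 := by
  classical
  choose α β hαβ using fun i => (h i).aff
  choose P hP0 hPe hPx using fun i => (h i).eqn
  obtain ⟨θ, hsur, hk⟩ := exists_theta
  have hge : ∀ N : ℕ, ∀ᶠ i in (hyperfilter ℕ : Filter ℕ), N ≤ i := by
    intro N
    have h1 : ∀ᶠ i : ℕ in cofinite, N ≤ i := by
      rw [Nat.cofinite_eq_atTop]
      exact eventually_ge_atTop N
    exact h1.filter_mono hyperfilter_le_cofinite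
  have hΘ : ∀ f : ℕ → ℂ, (∃ n, ∀ i, n ≤ i → f i = 0) → θ f = 0 := by
    rintro f ⟨N, hN⟩
    rw [hk]
    filter_upwards [hge N] with i hi
    exact hN i hi
  let ts : ℕ → ℂ := fun m => θ fun i => t i m
  let xs : ℕ → Fin (n + 1) → ℂ := fun m j => θ fun i => x i m j
  let Ps : Fin (n + 1) → ℕ → Polynomial ℂ := fun j k =>
    ∑ a ∈ Finset.range (e + 1), Polynomial.C (θ fun i => (P i j k).coeff a) * Polynomial.X ^ a
  have hPs : ∀ j k m, (Ps j k).eval (ts m) = θ fun i => (P i j k).eval (t i m) := by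
    intro j k m
    have h1 : (fun i => (P i j k).eval (t i m)) =
        ∑ a ∈ Finset.range (e + 1), (fun i => (P i j k).coeff a) * (fun i => t i m) ^ a := by
      funext i
      rw [Polynomial.eval_eq_sum_range' (n := e + 1) (by have := hPe i j k; omega),
        Finset.sum_apply]
      rfl
    rw [h1, map_sum, Polynomial.eval_finsetSum]
    refine Finset.sum_congr rfl fun a _ => ?_
    rw [Polynomial.eval_mul, Polynomial.eval_C, Polynomial.eval_pow, Polynomial.eval_X, map_mul,
      map_pow]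
  have hts : ∀ m, ts (m + 1) = θ α * ts m + θ β := by
    intro m
    change θ (fun i => t i (m + 1)) = _
    have h1 : (fun i => t i (m + 1)) = α * (fun i => t i m) + β := by
      funext i
      exact hαβ i m
    rw [h1, map_add, map_mul]
  have htinj : Function.Injective ts := by
    have h1 : ∀ a b : ℕ, a < b → ts a ≠ ts b := by
      intro a b hab h2
      obtain ⟨-, h3⟩ := theta_ne hΘ (fun (_ : Unit) i => t i a - t i b) b (fun i hi =>
        ⟨(), sub_ne_zero.2 ((h i).inj a b hab hi)⟩)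
      apply h3
      change θ ((fun i => t i a) - fun i => t i b) = 0
      rw [map_sub]
      exact sub_eq_zero.2 h2
    intro a b hab
    by_contra hne
    rcases lt_or_gt_of_ne hne with h2 | h2
    · exact h1 a b h2 hab
    · exact h1 b a h2 hab.symm
  have hxs0 : ∀ m, xs m ≠ 0 := by
    intro m
    obtain ⟨l, hl⟩ := theta_ne hΘ (fun l i => x i m l) m fun i hi =>
      Function.ne_iff.1 ((h i).ne m hi)
    exact Function.ne_iff.2 ⟨l, hl⟩
  have hP' : ∀ j, ∃ k ≤ r, Ps j k ≠ 0 := by
    intro j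
    obtain ⟨⟨k, a⟩, h1⟩ := theta_ne hΘ (fun (q : Fin (r + 1) × Fin (e + 1)) i =>
      (P i j q.1).coeff q.2) 0 (fun i _ => by
        obtain ⟨k, hkr, hk0⟩ := hP0 i j
        obtain ⟨a, ha⟩ : ∃ a, (P i j k).coeff a ≠ 0 := by
          by_contra hcon
          push Not at hcon
          exact hk0 (Polynomial.ext fun a => by rw [hcon a, Polynomial.coeff_zero])
        have hae : a ≤ e := (Polynomial.le_natDegree_of_ne_zero ha).trans (hPe i j k)
        exact ⟨(⟨k, by omega⟩, ⟨a, by omega⟩), ha⟩)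
    refine ⟨k, by omega, fun h0 => h1 ?_⟩
    have h2 := congrArg (fun q => Polynomial.coeff q (a : ℕ)) h0
    simp only [Ps, Polynomial.finsetSum_coeff, Polynomial.coeff_C_mul_X_pow,
      Polynomial.coeff_zero] at h2
    rw [Finset.sum_eq_single (a : ℕ)] at h2
    · rwa [if_pos rfl] at h2
    · intro b _ hb
      rw [if_neg (Ne.symm hb)]
    · intro h3
      exact absurd (Finset.mem_range.2 a.2) h3
  have hrec : ∀ j m, ∑ k ∈ Finset.range (r + 1), (Ps j k).eval (ts m) * xs (m + k) j = 0 := by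
    intro j m
    have h1 : ∑ k ∈ Finset.range (r + 1), (Ps j k).eval (ts m) * xs (m + k) j =
        θ (∑ k ∈ Finset.range (r + 1), (fun i => (P i j k).eval (t i m)) *
          fun i => x i (m + k) j) := by
      rw [map_sum]
      refine Finset.sum_congr rfl fun k _ => ?_
      rw [map_mul, hPs]
    rw [h1]
    apply hΘ
    refine ⟨m, fun i hi => ?_⟩
    rw [Finset.sum_apply]
    exact hPx i j m hi
  let s : Set (MvPolynomial (Fin (n + 1)) ℂ) :=
    {F' | ∃ F : ℕ → MvPolynomial (Fin (n + 1)) ℂ,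
      (∀ᶠ i in (hyperfilter ℕ : Filter ℕ), F i ∈ S i) ∧ F' = limT θ (TD (n + 1) D) F}
  have hdeg : ∀ F : ℕ → MvPolynomial (Fin (n + 1)) ℂ,
      (∀ᶠ i in (hyperfilter ℕ : Filter ℕ), F i ∈ S i) → ∃ e', e' ≤ D ∧
        ∀ᶠ i in (hyperfilter ℕ : Filter ℕ), (F i).IsHomogeneous e' := fun F hF =>
    exists_deg (D := D) (by
      filter_upwards [hF] with i hi
      exact hS i _ hi)
  have hs : ∀ G ∈ s, ∃ d, G.IsHomogeneous d := by
    rintro _ ⟨F, hF, rfl⟩
    obtain ⟨e', -, he'⟩ := hdeg F hF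
    exact ⟨e', limT_homog hk he'⟩
  have hX : ∀ m, ∀ G ∈ s, eval (xs m) G = 0 := by
    rintro m _ ⟨F, hF, rfl⟩
    obtain ⟨e', he'D, he'⟩ := hdeg F hF
    have h1 := eval_limT hk (T := TD (n + 1) D) (F := F) (by
      filter_upwards [he'] with i hi
      exact support_hom hi he'D) fun i => x i m
    change eval (fun j => θ fun i => x i m j) _ = 0
    rw [h1, hk]
    filter_upwards [hF, hge m] with i hi hmi
    exact (h i).on m hmi _ hi
  rcases seq_dich hts htinj hs hxs0 hP' hrec hX with ⟨k, m0, hk0, hper⟩ | ⟨m, p, hp1, hp2, hp3⟩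
  · exfalso
    obtain ⟨⟨u, v⟩, h1⟩ := theta_ne hΘ (fun (q : Fin (n + 1) × Fin (n + 1)) i =>
      x i m0 q.1 * x i (m0 + k) q.2 - x i m0 q.2 * x i (m0 + k) q.1) (m0 + k) (fun i hi => by
        obtain ⟨u, v, huv⟩ := (h i).diff m0 (m0 + k) (by omega) hi
        exact ⟨(u, v), sub_ne_zero.2 huv⟩)
    apply h1
    change θ ((fun i => x i m0 u) * (fun i => x i (m0 + k) v) -
      (fun i => x i m0 v) * fun i => x i (m0 + k) u) = 0
    rw [map_sub, map_mul, map_mul]
    have h2 := hper m0 le_rfl u v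
    change xs m0 u * xs (m0 + k) v - xs m0 v * xs (m0 + k) u = 0
    linear_combination -h2
  · refine ⟨Finset.univ.sup fun j => (p j).natDegree, m, fun G e' hG hGne => ?_⟩
    have hev := eval_limT hk (T := TD (n + 1) e') (F := G) (by
      filter_upwards [hG] with i hi
      exact support_hom hi le_rfl) fun i => x i m
    have hne : aeval p (limT θ (TD (n + 1) e') G) ≠ 0 := by
      intro h0
      apply hGne
      rw [← hk, ← hev]
      have h1 := congrArg (Polynomial.eval 1) h0
      rw [Polynomial.eval_zero, poly_eval, hp2] at h1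
      exact h1
    obtain ⟨j, k, u, v, huv⟩ := hp3
    have hnc : NonC p := ⟨u, v, j, k, huv⟩
    have h1 := los_curve hsur hk p
      (fun j => Finset.le_sup (f := fun j => (p j).natDegree) (Finset.mem_univ j)) hnc
      (S := S) (T := TD (n + 1) D) (fun i F hF => by
        obtain ⟨e1, he1, he1'⟩ := hS i F hF
        exact support_hom he1' he1)
      (fun F hF => hp1 _ ⟨F, hF, rfl⟩) (T' := TD (n + 1) e') (G := G) (by
        filter_upwards [hG] with i hi
        exact support_hom hi le_rfl) hne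
    filter_upwards [h1] with i hi
    obtain ⟨q, hq1, hq2, hq3, hq4, -⟩ := hi
    exact ⟨q, hq1, hq2, hq3, hq4⟩

end Pool.Agent.Q309.DU
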