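import Pool.Agent.Q309.DU.Seq
import Pool.Agent.Q1.SL.Unif

/-!
Sequences of points of projective varieties given by linear difference equations with polynomial
coefficients along an orbit of an affine map: uniform bounds.
-/

set_option autoImplicit false

namespace Pool.Agent.Q309.DU

open MvPolynomial Filter
open Pool.Agent.Q1.SL

variable {n : ℕ}

theorem hyper_ge (N : ℕ) : ∀ᶠ i in (hyperfilter ℕ : Filter ℕ), N ≤ i := by
  have h1 : ∀ᶠ i : ℕ in cofinite, N ≤ i := by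
    rw [Nat.cofinite_eq_atTop]
    exact eventually_ge_atTop N
  exact h1.filter_mono hyperfilter_le_cofinite

/-- **Bounds which are uniform in the variety.** -/
theorem seq_uniform (n D r e : ℕ) : ∃ d : ℕ, ∀ S : Set (MvPolynomial (Fin (n + 1)) ℂ),
    (∀ F ∈ S, ∃ e, e ≤ D ∧ F.IsHomogeneous e) → ∀ (t : ℕ → ℂ) (x : ℕ → Fin (n + 1) → ℂ),
      PSeq r e S d t x → ∃ m ≤ d, ∀ G : MvPolynomial (Fin (n + 1)) ℂ,
        (∃ e, e ≤ D ∧ G.IsHomogeneous e) → RatIn S G d → eval (x m) G = 0 := by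
  classical
  by_contra hcon
  push Not at hcon
  choose S hS t x hx hG using hcon
  choose! G hGd hrat hGx using hG
  obtain ⟨d0, m, hm⟩ := ultra_main hS hx
  obtain ⟨e', he', hhe⟩ := exists_deg (F := fun i => G i m) (D := D) (by
    filter_upwards [hyper_ge m] with i hi
    exact hGd i m hi)
  have h1 := hm (fun i => G i m) e' hhe (fun h0 => by
    obtain ⟨i, hi1, hi2⟩ := (h0.and (hyper_ge m)).exists
    exact hGx i m hi2 hi1)
  obtain ⟨i, ⟨p, hp1, hp2, hp3, hp4⟩, hi⟩ := (h1.and (hyper_ge (max d0 m))).exists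
  exact hp4 (hrat i m ((le_max_right _ _).trans hi) p
    (fun j => (hp1 j).trans ((le_max_left _ _).trans hi)) hp2 hp3)

/-- **Bounds for one variety**, for forms of arbitrary degree. -/
theorem seq_special (S : Set (MvPolynomial (Fin (n + 1)) ℂ))
    (hS : ∀ F ∈ S, ∃ e, F.IsHomogeneous e) (r e : ℕ) : ∃ d : ℕ,
    ∀ (t : ℕ → ℂ) (x : ℕ → Fin (n + 1) → ℂ), PSeq r e S d t x → ∃ m ≤ d,
      ∀ G : MvPolynomial (Fin (n + 1)) ℂ, (∃ e, G.IsHomogeneous e) → RatIn S G d →
        eval (x m) G = 0 := by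
  classical
  obtain ⟨S0, hS0, hS0'⟩ := exists_finite_forms S
  obtain ⟨D, hD⟩ : ∃ D, ∀ F ∈ S0, ∃ e, e ≤ D ∧ F.IsHomogeneous e := by
    refine ⟨S0.sup fun F => F.totalDegree, fun F hF => ?_⟩
    obtain ⟨e, he⟩ := hS F (hS0 F hF)
    by_cases h0 : F = 0
    · exact ⟨0, Nat.zero_le _, h0 ▸ isHomogeneous_zero _ _ _⟩
    · refine ⟨e, ?_, he⟩
      rw [← he.totalDegree h0]
      exact Finset.le_sup (f := fun F : MvPolynomial (Fin (n + 1)) ℂ => F.totalDegree) hF
  by_contra hcon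
  push Not at hcon
  choose t x hx hG using hcon
  choose! G hGd hrat hGx using hG
  obtain ⟨d0, m, hm⟩ := ultra_main (S := fun _ => (S0 : Set (MvPolynomial (Fin (n + 1)) ℂ)))
    (D := D) (fun i F hF => hD F hF) (t := t) (x := x) (r := r) (e := e) fun i =>
      { aff := (hx i).aff
        inj := (hx i).inj
        ne := (hx i).ne
        eqn := (hx i).eqn
        on := fun m hm F hF => (hx i).on m hm F (hS0 F hF)
        diff := (hx i).diff }
  obtain ⟨W, hW1, hW2⟩ := exists_finite_forms {g : MvPolynomial (Fin (n + 1)) ℂ |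
    (∃ e, g.IsHomogeneous e) ∧ ∀ p : Fin (n + 1) → Polynomial ℂ, (∀ j, (p j).natDegree ≤ d0) →
      (∀ F ∈ S, aeval p F = 0) → NonC p → aeval p g = 0}
  have hWx : ∀ g ∈ W, ∀ᶠ i in (hyperfilter ℕ : Filter ℕ), eval (x i m) g = 0 := by
    intro g hg
    obtain ⟨⟨e', he'⟩, hg2⟩ := hW1 g hg
    by_contra hno
    have h1 := hm (fun _ => g) e' (Eventually.of_forall fun _ => he') hno
    obtain ⟨i, p, hp1, hp2, hp3, hp4⟩ := h1.exists
    exact hp4 (hg2 p hp1 (hS0' _ p hp2) hp3)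
  have hWx' : ∀ᶠ i in (hyperfilter ℕ : Filter ℕ), ∀ g ∈ W, eval (x i m) g = 0 := by
    rw [Filter.eventually_all_finset]
    exact hWx
  obtain ⟨i, h2, hi⟩ := (hWx'.and (hyper_ge (max d0 m))).exists
  have hmi : m ≤ i := (le_max_right _ _).trans hi
  refine hGx i m hmi ?_
  rw [← aeval_ev]
  exact hW2 ℂ (x i m) (fun g hg => by rw [aeval_ev]; exact h2 g hg) (G i m) ⟨hGd i m hmi,
    fun p hp1 hp2 hp3 => hrat i m hmi p (fun j => (hp1 j).trans ((le_max_left _ _).trans hi))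
      hp2 hp3⟩

end Pool.Agent.Q309.DU
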